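import Pool.Agent.MWH.StmtsB

/-!
# Row KHH of block MWH: two heavy letters in a block commute
-/

namespace Pool.Agent.MWH.H52

open Pool.Agent.Helper14_MV Pool.Agent.Helper2_MV Pool.Agent.MVO Pool.Agent.MWL Pool.Agent.MWS
open Pool.Agent.MWH

theorem rtrans {β : FIC} {u v w : List ℕ} (h : RR β u v) (h' : RR β v w) : RR β u w :=
  β.trans h h'

/-- the word `0101` as a family of blocks -/
def QB : ℕ → List ℕ := fun _ => [0, 1, 0, 1]

/-- the two heavy types -/
def v2 : ℕ → ℕ := vc [2]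

theorem deg0 (a : ℕ → ℕ) : deg 0 a = a 0 := by simp [deg]

theorem vd0 : Vd 0 v2 v2 0 where
  ik := le_refl _
  ai := by decide
  bi := by decide
  un := by intro j hj hj0; omega
  da := by rw [deg0]; decide
  db := by rw [deg0]; decide

theorem vs0 (s : Stt) : Vs v2 v2 0 s := fun _ => Or.inl (by decide)

theorem okQ : OkB 0 QB where
  ok := by
    intro j _ c hc
    simp only [QB, List.mem_cons, List.not_mem_nil, or_false] at hc
    intro h
    omega
  ml := by
    intro j _ c hc
    rw [deg0]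
    simp only [QB, List.mem_cons, List.not_mem_nil, or_false] at hc
    have : c = 0 ∨ c = 1 := by omega
    rcases this with rfl | rfl <;> decide

theorem w0 (s : Stt) : W v2 v2 0 s 0 = blk 2 2 s := by
  simp [W, v2, vc]

theorem bov : blk 2 2 Stt.ov = [0, 1, 1, 0] := by decide

/-- `Bef` is not true if there is a decomposition with `x` behind `y` -/
theorem nbef {l P Q : List ℕ} {x y : ℕ} (h : l = P ++ y :: Q) (hx : x ∈ Q) : ¬ Bef l x y :=
  fun hb => hb P Q h hx

theorem q01 : ¬ Bef [0, 1, 0, 1] 0 1 := nbef (P := [0]) (Q := [0, 1]) rfl (by decide)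
theorem q10 : ¬ Bef [0, 1, 0, 1] 1 0 := nbef (P := []) (Q := [1, 0, 1]) rfl (by decide)
theorem o01 : ¬ Bef [0, 1, 1, 0] 0 1 := nbef (P := [0]) (Q := [1, 0]) rfl (by decide)
theorem o10 : ¬ Bef [0, 1, 1, 0] 1 0 := nbef (P := []) (Q := [1, 1, 0]) rfl (by decide)

/-- the transition `xy ~ ov` for two heavy letters -/
theorem base (nfe : NfeStmt) (okw : OkwStmt) {β : FIC} (h : S8 β) :
    Tr β 0 v2 v2 0 Stt.xy Stt.ov := by
  have hb : BaseH β := h.toBaseH
  have h1 : RR β [0, 0, 1, 1] [0, 1, 0, 1] := by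
    have := RR.sub (fun c => if c = 2 then [] else [c]) h.k4
    simpa using this
  have hw := okw 0 v2 v2 0 Stt.ov vd0 (vs0 _)
  have h2 : RR β (asm 0 QB) (asm 0 (W v2 v2 0 Stt.ov)) := by
    refine nfe β hb 0 QB (W v2 v2 0 Stt.ov) okQ hw.1 ?_ ?_
    · intro c _ j hj
      have hj0 : j = 0 := by omega
      subst hj0
      left
      show (QB 0).count c = (W v2 v2 0 Stt.ov 0).count c
      rw [w0, bov]
      show List.count c [0, 1, 0, 1] = List.count c [0, 1, 1, 0]
      simp only [List.count_cons, List.count_nil]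
      omega
    · intro i hi x y hxy hx hy _
      have hi0 : i = 0 := by omega
      subst hi0
      rw [w0, bov]
      show Bef [0, 1, 0, 1] x y ↔ Bef [0, 1, 1, 0] x y
      simp only [QB, List.mem_cons, List.not_mem_nil, or_false] at hx hy
      have hx' : x = 0 ∨ x = 1 := by omega
      have hy' : y = 0 ∨ y = 1 := by omega
      rcases hx' with rfl | rfl <;> rcases hy' with rfl | rfl
      · exact absurd rfl hxy
      · exact ⟨fun h => absurd h q01, fun h => absurd h o01⟩
      · exact ⟨fun h => absurd h q10, fun h => absurd h o10⟩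
      · exact absurd rfl hxy
  have h3 : asm 0 (W v2 v2 0 Stt.xy) = [0, 0, 1, 1] := by
    show W v2 v2 0 Stt.xy 0 = _
    rw [w0]; decide
  show RR β (asm 0 (W v2 v2 0 Stt.xy)) (asm 0 (W v2 v2 0 Stt.ov))
  rw [h3]
  exact rtrans h1 h2

theorem khh (nfe : NfeStmt) (okw : OkwStmt) (swt : SwtStmt) (pin : PinStmt) : KhhStmt := by
  intro β h k a b i hv ha hb
  have hB : BaseH β := h.toBaseH
  have t1 : Tr β 0 v2 v2 0 Stt.xy Stt.ov := base nfe okw h
  have t2 : Tr β 0 v2 v2 0 Stt.yx Stt.ov :=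
    ((swt β β hB (fun _ _ h => h) 0 v2 v2 0 vd0).2 Stt.xy Stt.ov (vs0 _) (vs0 _)).2.1 t1
  have t3 : ∀ s : Stt, Tr β 0 v2 v2 0 s Stt.ov := by
    intro s
    cases s
    · exact t1
    · exact t2
    · exact RR.refl _
  have t4 : ∀ s s' : Stt, Tr β 0 v2 v2 0 s s' := fun s s' => rtrans (t3 s) (RR.symm (t3 s'))
  intro s s' _ _
  refine pin β β hB (fun _ _ h => h) 0 k (fun _ => i) v2 v2 a b 0 ?_ hv.ik vd0 hv ?_ ?_ ?_ s s'
    (vs0 _) (vs0 _) (t4 s s')
  · intro j hj; omega
  · intro j hj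
    exact ⟨fun _ => hv.ai, fun _ => ha, fun _ => hv.bi, fun _ => hb⟩
  · constructor
    · intro h0; exact absurd h0 (by decide)
    · intro h0; exfalso; have h1 : _ = 1 := h0; omega
  · constructor
    · intro h0; exact absurd h0 (by decide)
    · intro h0; exfalso; have h1 : _ = 1 := h0; omega

end Pool.Agent.MWH.H52
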